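import Pool.Agent.MCI.Bridge
import Pool.Agent.MCI.U
import Pool.Agent.MCI.Low

/-!
# MP_2e2259_an, Q1: i.i.d. uniform points are not optimal for the Monte Carlo error

For `d = 2` and `k = 3/4` the Monte Carlo error of `n` independent uniformly distributed points
for integration on `H^{k,mix}(𝕋²)` is larger than the optimal Monte Carlo error by a factor of at
least `c (log n)^(1/16)`.
-/

open MeasureTheory Filter Topology
open scoped ENNReal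

namespace Pool.Agent.Results.MP_2e2259_an.MonteCarloLogLoss

open Pool.Agent.Helper59.MixInt Pool.Agent.MCI

/-- **Negative answer to Q1.** For `d = 2`, `k = 3/4`: `e^ran(n) ≤ C n^{-5/4}`,
`e^ran(𝒫_n) ≥ c n^{-5/4} (log n)^{1/16}` and `e^ran(𝒫_n) > c (log n)^{1/16} e^ran(n)` for all large
`n`. Consequently the assertion of Q1 is false. -/
theorem result :
    (∃ c C : ℝ, 0 < c ∧ 0 < C ∧
      (∀ᶠ n : ℕ in atTop, eRan 2 (3 / 4) n ≤ ENNReal.ofReal (C * (n : ℝ) ^ (-(5 / 4) : ℝ))) ∧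
      (∀ᶠ n : ℕ in atTop, ENNReal.ofReal (c * ((n : ℝ) ^ (-(5 / 4) : ℝ) *
        (Real.log n) ^ (1 / 16 : ℝ))) ≤ eRanIID 2 (3 / 4) n) ∧
      (∀ᶠ n : ℕ in atTop, ENNReal.ofReal (c * (Real.log n) ^ (1 / 16 : ℝ)) *
        eRan 2 (3 / 4) n < eRanIID 2 (3 / 4) n)) ∧
    ¬ ∀ (d : ℕ) (k : ℝ), 1 ≤ d → 1 / 2 < k → AsympEq (eRanIID d k) (eRan d k) := by
  have e54 : -((3 / 4 : ℝ) + 1 / 2) = (-(5 / 4) : ℝ) := by norm_num
  have hU : ∃ C : ℝ, 0 < C ∧ ∀ᶠ n : ℕ in atTop,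
      eRan 2 (3 / 4) n ≤ ENNReal.ofReal (C * (n : ℝ) ^ (-((3 / 4 : ℝ) + 1 / 2))) := by
    obtain ⟨C, hC, h⟩ := eRan_le (k := 3 / 4) (by norm_num) (by norm_num)
    exact ⟨C, hC, (eventually_ge_atTop 2).mono h⟩
  have hL : ∃ c : ℝ, 0 < c ∧ ∀ᶠ n : ℕ in atTop,
      ENNReal.ofReal (c * ((n : ℝ) ^ (-((3 / 4 : ℝ) + 1 / 2)) * (Real.log n) ^ (1 / 16 : ℝ))) ≤
        eRanIID 2 (3 / 4) n := by
    obtain ⟨c, hc, h⟩ := Pool.Agent.MCI.eRanIID_ge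
    refine ⟨c, hc, ?_⟩
    filter_upwards [h] with n hn
    rw [eRanIID_eq] at hn
    rw [e54]
    exact hn
  have main := bounds_of hU hL
  rw [e54] at main
  refine ⟨main, ?_⟩
  obtain ⟨c, C, hc, hC, h1, h2, h3⟩ := main
  exact not_asympEq_of (k := 3 / 4) (by norm_num) (by norm_num : (0 : ℝ) < 1 / 16) ⟨c, hc, h3⟩

end Pool.Agent.Results.MP_2e2259_an.MonteCarloLogLoss
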