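import Pool.Agent.Helper59.MixInt.Lower
import Pool.Agent.Helper59.MixInt.Rule

/-!
# MP_2e2259_an, Q2: i.i.d. uniform points are not optimal for the uniform error

For `d = 2` and every `k ∈ (1/2, 1)` the uniform error of `n` independent uniformly distributed
points for integration on `H^{k,mix}(𝕋²)` is larger than the optimal uniform error by a factor of
at least `c (log n)^γ`, `γ = min ((k - 1/2)/2) ((1 - k)/4) > 0`.
-/

open MeasureTheory Filter Topology
open scoped ENNReal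

namespace Pool.Agent.Results.MP_2e2259_an.UnifLogLoss

open Pool.Agent.Helper59.MixInt

/-- `a_n ≍ b_n`: `c b_n ≤ a_n ≤ C b_n` for all large `n`, with positive constants. -/
def AsympEq (a b : ℕ → ℝ≥0∞) : Prop :=
  ∃ c C : ℝ, 0 < c ∧ 0 < C ∧
    ∀ᶠ n in atTop, ENNReal.ofReal c * b n ≤ a n ∧ a n ≤ ENNReal.ofReal C * b n

/-- **Negative answer to Q2.** For `d = 2` and all `k ∈ (1/2, 1)`, with
`γ = min ((k - 1/2)/2) ((1 - k)/4) > 0`: `e^unif(n) ≤ C n^{-k} (log n)^{1/2}`,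
`e^unif(𝒫_n) ≥ c n^{-k} (log n)^{1/2 + γ}` and `e^unif(𝒫_n) > c (log n)^γ e^unif(n)` for all
large `n`. Consequently the assertion of Q2 is false. -/
theorem result :
    (∀ k : ℝ, 1 / 2 < k → k < 1 →
      0 < min ((k - 1 / 2) / 2) ((1 - k) / 4) ∧
      ∃ c C : ℝ, 0 < c ∧ 0 < C ∧
        (∀ᶠ n : ℕ in atTop, eUnif 2 k n ≤
          ENNReal.ofReal (C * ((n : ℝ) ^ (-k) * (Real.log n) ^ (1 / 2 : ℝ)))) ∧
        (∀ᶠ n : ℕ in atTop, ENNReal.ofReal (c * ((n : ℝ) ^ (-k) *
          (Real.log n) ^ (1 / 2 + min ((k - 1 / 2) / 2) ((1 - k) / 4)))) ≤ eUnifIID 2 k n) ∧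
        (∀ᶠ n : ℕ in atTop, ENNReal.ofReal (c * (Real.log n) ^ min ((k - 1 / 2) / 2) ((1 - k) / 4)) *
          eUnif 2 k n < eUnifIID 2 k n)) ∧
    ¬ ∀ (d : ℕ) (k : ℝ), 1 ≤ d → 1 / 2 < k → AsympEq (eUnifIID d k) (eUnif d k) := by
  have main : ∀ k : ℝ, 1 / 2 < k → k < 1 →
      0 < min ((k - 1 / 2) / 2) ((1 - k) / 4) ∧
      ∃ c C : ℝ, 0 < c ∧ 0 < C ∧
        (∀ᶠ n : ℕ in atTop, eUnif 2 k n ≤
          ENNReal.ofReal (C * ((n : ℝ) ^ (-k) * (Real.log n) ^ (1 / 2 : ℝ)))) ∧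
        (∀ᶠ n : ℕ in atTop, ENNReal.ofReal (c * ((n : ℝ) ^ (-k) *
          (Real.log n) ^ (1 / 2 + min ((k - 1 / 2) / 2) ((1 - k) / 4)))) ≤ eUnifIID 2 k n) ∧
        (∀ᶠ n : ℕ in atTop, ENNReal.ofReal (c * (Real.log n) ^ min ((k - 1 / 2) / 2) ((1 - k) / 4)) *
          eUnif 2 k n < eUnifIID 2 k n) := by
    intro k hk hk1
    have hγ : 0 < min ((k - 1 / 2) / 2) ((1 - k) / 4) := gam_pos hk hk1
    set γ := min ((k - 1 / 2) / 2) ((1 - k) / 4) with hγdef
    refine ⟨hγ, ?_⟩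
    set c₀ : ℝ := 1 / (4 * √(CL k)) with hc₀
    have hCL := CL_pos hk1
    have hc₀pos : 0 < c₀ := by
      have := Real.sqrt_pos.2 hCL
      positivity
    have hCU : 0 ≤ CU k := Real.sqrt_nonneg _
    set C : ℝ := CU k + 1 with hC
    have hCpos : 0 < C := by linarith
    have hbig : ∀ᶠ n : ℕ in atTop, 82944 ≤ Real.log n :=
      (Real.tendsto_log_atTop.comp tendsto_natCast_atTop_atTop).eventually_ge_atTop _
    have hup : ∀ᶠ n : ℕ in atTop, eUnif 2 k n ≤
        ENNReal.ofReal (C * ((n : ℝ) ^ (-k) * (Real.log n) ^ (1 / 2 : ℝ))) := by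
      filter_upwards [hbig, eventually_ge_atTop 2] with n hn hn2
      refine (eUnif_le hk hn2).trans (ENNReal.ofReal_le_ofReal ?_)
      have : 0 ≤ Real.log n := by linarith
      exact mul_le_mul_of_nonneg_right (by rw [hC]; linarith) (by positivity)
    have hlow : ∀ᶠ n : ℕ in atTop, ENNReal.ofReal (c₀ * ((n : ℝ) ^ (-k) *
        (Real.log n) ^ (1 / 2 + γ))) ≤ eUnifIID 2 k n := by
      filter_upwards [hbig] with n hn
      exact eUnifIID_ge hk hk1 hn
    -- a common small constant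
    set c : ℝ := min c₀ (c₀ / (2 * C)) with hc
    have hcpos : 0 < c := lt_min hc₀pos (by positivity)
    refine ⟨c, C, hcpos, hCpos, hup, ?_, ?_⟩
    · filter_upwards [hlow, hbig] with n h1 hn
      refine le_trans (ENNReal.ofReal_le_ofReal ?_) h1
      have : 0 ≤ Real.log n := by linarith
      exact mul_le_mul_of_nonneg_right (min_le_left _ _) (by positivity)
    · filter_upwards [hlow, hup, hbig, eventually_ge_atTop 1] with n h1 h2 hn hn1
      have hlog : 0 < Real.log n := by linarith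
      have hn0 : (0 : ℝ) < n := by exact_mod_cast hn1
      calc ENNReal.ofReal (c * (Real.log n) ^ γ) * eUnif 2 k n
          ≤ ENNReal.ofReal (c * (Real.log n) ^ γ) *
            ENNReal.ofReal (C * ((n : ℝ) ^ (-k) * (Real.log n) ^ (1 / 2 : ℝ))) := by gcongr
        _ = ENNReal.ofReal (c * (Real.log n) ^ γ *
            (C * ((n : ℝ) ^ (-k) * (Real.log n) ^ (1 / 2 : ℝ)))) := by
            rw [← ENNReal.ofReal_mul (by positivity)]
        _ < ENNReal.ofReal (c₀ * ((n : ℝ) ^ (-k) * (Real.log n) ^ (1 / 2 + γ))) := by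
            rw [ENNReal.ofReal_lt_ofReal_iff (by positivity)]
            have e : c * (Real.log n) ^ γ * (C * ((n : ℝ) ^ (-k) * (Real.log n) ^ (1 / 2 : ℝ))) =
                (c * C) * ((n : ℝ) ^ (-k) * (Real.log n) ^ (1 / 2 + γ)) := by
              rw [Real.rpow_add hlog]
              ring
            rw [e]
            apply mul_lt_mul_of_pos_right _ (by positivity)
            have h3 : c * C ≤ c₀ / (2 * C) * C := mul_le_mul_of_nonneg_right (min_le_right _ _) hCpos.le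
            have h4 : c₀ / (2 * C) * C = c₀ / 2 := by field_simp
            linarith
        _ ≤ eUnifIID 2 k n := h1
  refine ⟨main, ?_⟩
  intro hall
  obtain ⟨hγ, c, C, hc, hC, hup, hlow, hratio⟩ := main (3 / 4) (by norm_num) (by norm_num)
  obtain ⟨c', C', hc', hC', hev⟩ := hall 2 (3 / 4) (by norm_num) (by norm_num)
  have hlogt : Tendsto (fun n : ℕ => c * (Real.log n) ^
      min (((3 / 4 : ℝ) - 1 / 2) / 2) ((1 - 3 / 4) / 4)) atTop atTop :=
    ((tendsto_rpow_atTop hγ).comp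
      (Real.tendsto_log_atTop.comp tendsto_natCast_atTop_atTop)).const_mul_atTop hc
  obtain ⟨n, h1, h2, h3⟩ := (hev.and (hratio.and (hlogt.eventually_ge_atTop C'))).exists
  have h4 : ENNReal.ofReal C' * eUnif 2 (3 / 4) n ≤
      ENNReal.ofReal (c * (Real.log n) ^ min (((3 / 4 : ℝ) - 1 / 2) / 2) ((1 - 3 / 4) / 4)) *
        eUnif 2 (3 / 4) n := by gcongr
  exact absurd (h1.2.trans h4) (not_le.2 h2)

end Pool.Agent.Results.MP_2e2259_an.UnifLogLoss
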